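import Pool.Agent.R341.SG.Stm

/-!
# Project SG, piece ONE: the one-dimensional inequality
-/

set_option autoImplicit false

namespace Pool.Agent.R789.SG

open Set

/-- the unclipped bracket; `c` stands for `1/e` -/
noncomputable def B (c s : ℝ) : ℝ := 2 * (2 - 4 * c) / (1 + s) + c / s + (3 * c - 1)

/-- the logarithmic derivative part -/
noncomputable def T (c s : ℝ) : ℝ := 2 * (2 - 4 * c) * s / (1 + s) ^ 2 + c / s

theorem T_sub (c s : ℝ) (hs : 0 < s) :
    (T c s - (1 - c) * B c s) * (s * (1 + s) ^ 2) =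
      (s - 1) * ((1 - 4 * c + 3 * c ^ 2) * s ^ 2 + (3 - 8 * c + 2 * c ^ 2) * s - c ^ 2) := by
  unfold T B
  have h1 : s ≠ 0 := hs.ne'
  have h2 : 1 + s ≠ 0 := by positivity
  field_simp
  ring

theorem B_sub_T (c s : ℝ) (hs : 0 < s) :
    (B c s - T c s) * (s * (1 + s) ^ 2) =
      2 * (2 - 4 * c) * s + (3 * c - 1) * s * (1 + s) ^ 2 := by
  unfold T B
  have h1 : s ≠ 0 := hs.ne'
  have h2 : 1 + s ≠ 0 := by positivity
  field_simp
  ring

theorem T_eq (c s : ℝ) (hs : 0 < s) :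
    T c s * (s * (1 + s) ^ 2) = 2 * (2 - 4 * c) * s ^ 2 + c * (1 + s) ^ 2 := by
  unfold T
  have h1 : s ≠ 0 := hs.ne'
  have h2 : 1 + s ≠ 0 := by positivity
  field_simp

/-- lower bound of the quadratic factor -/
theorem quad_lb {c s : ℝ} (h1 : 0.36787 < c) (h2 : c < 0.36788) (hs : 0 ≤ s) :
    -0.0657 * s ^ 2 + 0.3275 * s - 0.1354 ≤
      (1 - 4 * c + 3 * c ^ 2) * s ^ 2 + (3 - 8 * c + 2 * c ^ 2) * s - c ^ 2 := by
  have e1 : -0.0657 ≤ 1 - 4 * c + 3 * c ^ 2 := by nlinarith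
  have e2 : 0.3275 ≤ 3 - 8 * c + 2 * c ^ 2 := by nlinarith
  have e3 : c ^ 2 ≤ 0.1354 := by nlinarith
  have e4 := mul_le_mul_of_nonneg_right e1 (sq_nonneg s)
  have e5 := mul_le_mul_of_nonneg_right e2 hs
  linarith

/-- sign of the derivative to the right of `1` -/
theorem right_sign {c s z N : ℝ} (h1 : 0.36787 < c) (h2 : c < 0.36788) (hs1 : 1 ≤ s) (hs4 : s ≤ 4)
    (hN : 256 ≤ N) (hz : z ≤ 1 + (s - 1) / N) :
    (1 - c) * z * B c s - ((1 - c) * z + c) * T c s ≤ 0 := by
  have hs : 0 < s := by linarith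
  have hP : 0 < s * (1 + s) ^ 2 := by positivity
  have hBT : 0 ≤ B c s - T c s := by
    have := B_sub_T c s hs
    have h3 : 0 ≤ 2 * (2 - 4 * c) * s + (3 * c - 1) * s * (1 + s) ^ 2 := by
      have : 0 ≤ 3 * c - 1 := by linarith
      have : 0 ≤ 2 - 4 * c := by linarith
      positivity
    rw [← this] at h3
    exact nonneg_of_mul_nonneg_left h3 hP
  have hkey : (s - 1) / N * ((1 - c) * (B c s - T c s)) ≤ T c s - (1 - c) * B c s := by
    have h4 : (s - 1) / N ≤ (s - 1) / 256 := by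
      apply div_le_div_of_nonneg_left (by linarith) (by norm_num) hN
    have h5 : 0 ≤ (1 - c) * (B c s - T c s) := mul_nonneg (by linarith) hBT
    refine (mul_le_mul_of_nonneg_right h4 h5).trans ?_
    have h6 : (T c s - (1 - c) * B c s - (s - 1) / 256 * ((1 - c) * (B c s - T c s)))
        * (s * (1 + s) ^ 2) =
      (s - 1) * (((1 - 4 * c + 3 * c ^ 2) * s ^ 2 + (3 - 8 * c + 2 * c ^ 2) * s - c ^ 2)
        - (1 - c) / 256 * (2 * (2 - 4 * c) * s + (3 * c - 1) * s * (1 + s) ^ 2)) := by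
      have e1 := T_sub c s hs
      have e2 := B_sub_T c s hs
      calc _ = (T c s - (1 - c) * B c s) * (s * (1 + s) ^ 2)
            - (s - 1) / 256 * (1 - c) * ((B c s - T c s) * (s * (1 + s) ^ 2)) := by ring
        _ = _ := by rw [e1, e2]; ring
    have h7 := quad_lb h1 h2 hs.le
    have h8 : (1 - c) / 256 * (2 * (2 - 4 * c) * s + (3 * c - 1) * s * (1 + s) ^ 2) ≤
        0.6323 / 256 * (1.0571 * s + 0.1037 * s * (1 + s) ^ 2) := by
      apply mul_le_mul
      · linarith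
      · have e1 : 2 * (2 - 4 * c) * s ≤ 1.0571 * s := by nlinarith
        have e2 : (3 * c - 1) * (s * (1 + s) ^ 2) ≤ 0.1037 * (s * (1 + s) ^ 2) :=
          mul_le_mul_of_nonneg_right (by linarith) hP.le
        nlinarith
      · have : 0 ≤ 3 * c - 1 := by linarith
        have : 0 ≤ 2 - 4 * c := by linarith
        positivity
      · norm_num
    have h9 : 0 ≤ (-0.0657 * s ^ 2 + 0.3275 * s - 0.1354)
        - 0.6323 / 256 * (1.0571 * s + 0.1037 * s * (1 + s) ^ 2) := by
      nlinarith [mul_nonneg (sub_nonneg.2 hs1) (sub_nonneg.2 hs4),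
        mul_nonneg (mul_nonneg (sub_nonneg.2 hs1) (sub_nonneg.2 hs4)) hs.le]
    have h10 : 0 ≤ (T c s - (1 - c) * B c s - (s - 1) / 256 * ((1 - c) * (B c s - T c s)))
        * (s * (1 + s) ^ 2) := by
      rw [h6]
      exact mul_nonneg (by linarith) (by linarith)
    have h11 := nonneg_of_mul_nonneg_left h10 hP
    linarith
  have h12 : z * ((1 - c) * (B c s - T c s)) ≤
      (1 + (s - 1) / N) * ((1 - c) * (B c s - T c s)) :=
    mul_le_mul_of_nonneg_right hz (mul_nonneg (by linarith) hBT)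
  nlinarith

/-- sign of the derivative to the left of `1` -/
theorem left_sign {c s z N : ℝ} (h1 : 0.36787 < c) (h2 : c < 0.36788) (hs1 : s ≤ 1)
    (hs4 : 1 / 2 ≤ s) (hN : 256 ≤ N) (hz0 : 0 < z) (hz : 1 / z ≤ 1 + (1 / s - 1) / N) :
    0 ≤ (1 - c) * z * B c s - ((1 - c) * z + c) * T c s := by
  have hs : 0 < s := by linarith
  have hP : 0 < s * (1 + s) ^ 2 := by positivity
  have hT : 0 ≤ T c s := by
    unfold T
    have : 0 ≤ 2 - 4 * c := by linarith
    positivity
  have hkey : (1 / s - 1) / N * (c * T c s) ≤ (1 - c) * B c s - T c s := by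
    have h3 : 0 ≤ 1 / s - 1 := by
      rw [sub_nonneg, le_div_iff₀ hs]
      linarith
    have h4 : (1 / s - 1) / N ≤ (1 / s - 1) / 256 :=
      div_le_div_of_nonneg_left h3 (by norm_num) hN
    refine (mul_le_mul_of_nonneg_right h4 (mul_nonneg (by linarith) hT)).trans ?_
    have h6 : ((1 - c) * B c s - T c s - (1 / s - 1) / 256 * (c * T c s)) * (s * (1 + s) ^ 2) * s
        = (1 - s) * (((1 - 4 * c + 3 * c ^ 2) * s ^ 2 + (3 - 8 * c + 2 * c ^ 2) * s - c ^ 2) * s
          - c / 256 * (2 * (2 - 4 * c) * s ^ 2 + c * (1 + s) ^ 2)) := by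
      have e1 := T_sub c s hs
      have e2 := T_eq c s hs
      have e3 : (1 / s - 1) * s = 1 - s := by
        field_simp
      calc _ = -((T c s - (1 - c) * B c s) * (s * (1 + s) ^ 2)) * s
            - ((1 / s - 1) * s) / 256 * c * (T c s * (s * (1 + s) ^ 2)) := by ring
        _ = _ := by rw [e1, e2, e3]; ring
    have h7 := mul_le_mul_of_nonneg_right (quad_lb h1 h2 hs.le) hs.le
    have h8 : c / 256 * (2 * (2 - 4 * c) * s ^ 2 + c * (1 + s) ^ 2) ≤
        0.3679 / 256 * (1.0571 * s ^ 2 + 0.3679 * (1 + s) ^ 2) := by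
      apply mul_le_mul
      · linarith
      · have e1 : 2 * (2 - 4 * c) * s ^ 2 ≤ 1.0571 * s ^ 2 :=
          mul_le_mul_of_nonneg_right (by linarith) (sq_nonneg s)
        have e2 : c * (1 + s) ^ 2 ≤ 0.3679 * (1 + s) ^ 2 :=
          mul_le_mul_of_nonneg_right (by linarith) (sq_nonneg _)
        linarith
      · have : 0 ≤ 2 - 4 * c := by linarith
        have : 0 ≤ c := by linarith
        positivity
      · norm_num
    have h9 : 0 ≤ (-0.0657 * s ^ 2 + 0.3275 * s - 0.1354) * s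
        - 0.3679 / 256 * (1.0571 * s ^ 2 + 0.3679 * (1 + s) ^ 2) := by
      nlinarith [mul_nonneg (sub_nonneg.2 hs1) (sub_nonneg.2 hs4),
        mul_nonneg (mul_nonneg (sub_nonneg.2 hs1) (sub_nonneg.2 hs4)) hs.le]
    have h10 : 0 ≤ ((1 - c) * B c s - T c s - (1 / s - 1) / 256 * (c * T c s))
        * (s * (1 + s) ^ 2) * s := by
      rw [h6]
      exact mul_nonneg (by linarith) (by linarith)
    have h11 := nonneg_of_mul_nonneg_left (nonneg_of_mul_nonneg_left h10 hs) hP
    linarith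
  -- now multiply by z
  have h12 : 1 / z * (c * T c s) ≤ (1 + (1 / s - 1) / N) * (c * T c s) :=
    mul_le_mul_of_nonneg_right hz (mul_nonneg (by linarith) hT)
  have h13 : c * T c s = z * (1 / z * (c * T c s)) := by
    field_simp
  have h14 : z * (1 / z * (c * T c s)) ≤ z * ((1 - c) * (B c s - T c s)) := by
    apply mul_le_mul_of_nonneg_left _ hz0.le
    nlinarith
  nlinarith

/-- the function to be bounded by `1` -/
noncomputable def F (c : ℝ) (N : ℕ) (z : ℝ) : ℝ := ((1 - c) * z + c) ^ N * B c (z ^ N)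

theorem hasDerivAt_F (c : ℝ) (M : ℕ) (z : ℝ) (hz : 0 < z) :
    HasDerivAt (F c (M + 1))
      (((M : ℝ) + 1) * ((1 - c) * z + c) ^ M / z *
        ((1 - c) * z * B c (z ^ (M + 1)) - ((1 - c) * z + c) * T c (z ^ (M + 1)))) z := by
  have hs : 0 < z ^ (M + 1) := by positivity
  have h1 : HasDerivAt (fun w : ℝ => (1 - c) * w + c) (1 - c) z := by
    simpa using ((hasDerivAt_id z).const_mul (1 - c)).add_const c
  have h2 : HasDerivAt (fun w : ℝ => ((1 - c) * w + c) ^ (M + 1))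
      (((M : ℝ) + 1) * ((1 - c) * z + c) ^ M * (1 - c)) z := by
    simpa using h1.fun_pow (M + 1)
  have h3 : HasDerivAt (fun w : ℝ => w ^ (M + 1)) (((M : ℝ) + 1) * z ^ M) z := by
    simpa using hasDerivAt_pow (M + 1) z
  have h4 : HasDerivAt (fun w : ℝ => B c (w ^ (M + 1)))
      (2 * (2 - 4 * c) * (-(((M : ℝ) + 1) * z ^ M) / (1 + z ^ (M + 1)) ^ 2)
        + c * (-(((M : ℝ) + 1) * z ^ M) / (z ^ (M + 1)) ^ 2)) z := by
    have e1 := (h3.const_add 1).inv (by positivity)
    have e2 := h3.inv hs.ne'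
    have e3 := ((e1.const_mul (2 * (2 - 4 * c))).add (e2.const_mul c)).add_const (3 * c - 1)
    refine e3.congr_of_eventuallyEq (Filter.Eventually.of_forall fun w => ?_)
    simp only [B, div_eq_mul_inv, Pi.add_apply, Pi.inv_apply]
  have h5 : HasDerivAt (F c (M + 1)) _ z := h2.fun_mul h4
  refine h5.congr_deriv ?_
  unfold T
  rw [pow_succ z M, pow_succ ((1 - c) * z + c) M]
  have hzM : z ^ M ≠ 0 := by positivity
  have hz' : z ≠ 0 := hz.ne'
  have h1z : 1 + z ^ M * z ≠ 0 := by positivity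
  field_simp
  ring

theorem F_one (c : ℝ) (N : ℕ) : F c N 1 = 1 := by
  unfold F B
  rw [one_pow, mul_one, sub_add_cancel, one_pow]
  ring

/-- the main inequality, in the bulk -/
theorem F_le {c : ℝ} (h1 : 0.36787 < c) (h2 : c < 0.36788) (M : ℕ) (hM : 256 ≤ M) (z : ℝ)
    (hz : 0 < z) (hlo : 1 / 2 ≤ z ^ (M + 1)) (hhi : z ^ (M + 1) ≤ 4) : F c (M + 1) z ≤ 1 := by
  have hMR : (256 : ℝ) ≤ (M : ℝ) + 1 := by
    have : (256 : ℝ) ≤ (M : ℝ) := by exact_mod_cast hM
    linarith
  have hM0 : (0 : ℝ) < (M : ℝ) + 1 := by linarith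
  -- Bernoulli
  have hbern : ∀ w : ℝ, 1 ≤ w → w ≤ 1 + (w ^ (M + 1) - 1) / ((M : ℝ) + 1) := by
    intro w hw
    have h3 := one_add_mul_sub_le_pow (a := w) (by linarith) (M + 1)
    push_cast at h3
    rw [← sub_le_iff_le_add', le_div_iff₀ hM0]
    linarith
  have hpos : ∀ w : ℝ, 0 < w → 0 < (1 - c) * w + c := by
    intro w hw
    have : 0 < 1 - c := by linarith
    have : 0 < c := by linarith
    positivity
  rcases le_total 1 z with h | h
  · -- to the right
    have hanti : AntitoneOn (F c (M + 1)) (Icc 1 z) := by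
      apply antitoneOn_of_deriv_nonpos (convex_Icc _ _)
      · intro w hw
        exact (hasDerivAt_F c M w (by linarith [hw.1])).continuousAt.continuousWithinAt
      · intro w hw
        rw [interior_Icc] at hw
        exact (hasDerivAt_F c M w (by linarith [hw.1])).differentiableAt.differentiableWithinAt
      · intro w hw
        rw [interior_Icc] at hw
        have hw0 : 0 < w := by linarith [hw.1]
        rw [(hasDerivAt_F c M w hw0).deriv]
        have h3 : 1 ≤ w ^ (M + 1) := one_le_pow₀ hw.1.le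
        have h4 : w ^ (M + 1) ≤ 4 := (pow_le_pow_left₀ hw0.le hw.2.le _).trans hhi
        have h5 := right_sign h1 h2 h3 h4 hMR (hbern w hw.1.le)
        have h6 := hpos w hw0
        apply mul_nonpos_of_nonneg_of_nonpos _ h5
        positivity
    have := hanti (left_mem_Icc.2 h) (right_mem_Icc.2 h) h
    rwa [F_one] at this
  · have hmono : MonotoneOn (F c (M + 1)) (Icc z 1) := by
      apply monotoneOn_of_deriv_nonneg (convex_Icc _ _)
      · intro w hw
        exact (hasDerivAt_F c M w (by linarith [hw.1])).continuousAt.continuousWithinAt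
      · intro w hw
        rw [interior_Icc] at hw
        exact (hasDerivAt_F c M w (by linarith [hw.1])).differentiableAt.differentiableWithinAt
      · intro w hw
        rw [interior_Icc] at hw
        have hw0 : 0 < w := by linarith [hw.1]
        rw [(hasDerivAt_F c M w hw0).deriv]
        have h3 : w ^ (M + 1) ≤ 1 := pow_le_one₀ hw0.le hw.2.le
        have h4 : 1 / 2 ≤ w ^ (M + 1) := hlo.trans (pow_le_pow_left₀ hz.le hw.1.le _)
        have h7 := hbern (1 / w) (by rw [le_div_iff₀ hw0]; linarith [hw.2])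
        rw [div_pow, one_pow] at h7
        have h5 := left_sign h1 h2 h3 h4 hMR hw0 h7
        have h6 := hpos w hw0
        apply mul_nonneg _ h5
        positivity
    have := hmono (left_mem_Icc.2 h) (right_mem_Icc.2 h) h
    rwa [F_one] at this

/-- the clipped bracket -/
noncomputable def Lc (c s : ℝ) : ℝ :=
  (2 - 4 * c) * (2 / (s + 1)) + c * min (1 / s) 1.01 + (3 * c - 1) * min 1 (1.01 / s)

theorem Lc_small {c : ℝ} (h1 : 0.36787 < c) (h2 : c < 0.36788) (s : ℝ) (hs : 0 < s) :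
    Lc c s ≤ B c (1 / 2) := by
  have hc : 0 < c := by linarith
  have hq1 : 0 < 2 - 4 * c := by linarith
  have hq2 : 0 < 3 * c - 1 := by linarith
  have e1 : (2 - 4 * c) * (2 / (s + 1)) ≤ (2 - 4 * c) * 2 := by
    apply mul_le_mul_of_nonneg_left _ hq1.le
    rw [div_le_iff₀ (by positivity)]
    linarith
  have e2 : c * min (1 / s) 1.01 ≤ c * 1.01 :=
    mul_le_mul_of_nonneg_left (min_le_right _ _) hc.le
  have e3 : (3 * c - 1) * min 1 (1.01 / s) ≤ (3 * c - 1) * 1 :=
    mul_le_mul_of_nonneg_left (min_le_left _ _) hq2.le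
  have e4 : B c (1 / 2) = 4 / 3 * (2 - 4 * c) + 2 * c + (3 * c - 1) := by
    unfold B
    ring
  unfold Lc
  rw [e4]
  linarith

theorem Lc_bulk {c : ℝ} (h1 : 0.36787 < c) (h2 : c < 0.36788) (s : ℝ) :
    Lc c s ≤ B c s := by
  have hc : 0 < c := by linarith
  have hq2 : 0 < 3 * c - 1 := by linarith
  have e2 : c * min (1 / s) 1.01 ≤ c * (1 / s) :=
    mul_le_mul_of_nonneg_left (min_le_left _ _) hc.le
  have e3 : (3 * c - 1) * min 1 (1.01 / s) ≤ (3 * c - 1) * 1 :=
    mul_le_mul_of_nonneg_left (min_le_left _ _) hq2.le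
  unfold Lc B
  have e4 : 2 * (2 - 4 * c) / (1 + s) = (2 - 4 * c) * (2 / (s + 1)) := by
    rw [add_comm]
    ring
  rw [e4, div_eq_mul_one_div c]
  linarith

theorem Lc_large {c : ℝ} (h1 : 0.36787 < c) (h2 : c < 0.36788) (s : ℝ) (hs : 0 < s) :
    Lc c s * s ≤ 4 * B c 4 := by
  have hc : 0 < c := by linarith
  have hq1 : 0 < 2 - 4 * c := by linarith
  have hq2 : 0 < 3 * c - 1 := by linarith
  have e1 : (2 - 4 * c) * (2 / (s + 1)) * s ≤ (2 - 4 * c) * 2 := by
    rw [mul_assoc]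
    apply mul_le_mul_of_nonneg_left _ hq1.le
    rw [div_mul_eq_mul_div, div_le_iff₀ (by positivity)]
    linarith
  have e2 : c * min (1 / s) 1.01 * s ≤ c := by
    have : min (1 / s) 1.01 * s ≤ 1 := by
      calc min (1 / s) 1.01 * s ≤ (1 / s) * s :=
            mul_le_mul_of_nonneg_right (min_le_left _ _) hs.le
        _ = 1 := by field_simp
    rw [mul_assoc]
    nlinarith
  have e3 : (3 * c - 1) * min 1 (1.01 / s) * s ≤ (3 * c - 1) * 1.01 := by
    rw [mul_assoc]
    apply mul_le_mul_of_nonneg_left _ hq2.le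
    calc min 1 (1.01 / s) * s ≤ (1.01 / s) * s :=
          mul_le_mul_of_nonneg_right (min_le_right _ _) hs.le
      _ = 1.01 := by field_simp
  have e4 : Lc c s * s = (2 - 4 * c) * (2 / (s + 1)) * s +
      c * min (1 / s) 1.01 * s + (3 * c - 1) * min 1 (1.01 / s) * s := by
    unfold Lc
    ring
  have e5 : 4 * B c 4 = 8 / 5 * (2 - 4 * c) + c + 4 * (3 * c - 1) := by
    unfold B
    ring
  rw [e4, e5]
  linarith

theorem Lc_nonneg {c : ℝ} (h1 : 0.36787 < c) (h2 : c < 0.36788) (s : ℝ) (hs : 0 < s) :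
    0 ≤ Lc c s := by
  have hc : 0 < c := by linarith
  have hq1 : 0 < 2 - 4 * c := by linarith
  have hq2 : 0 < 3 * c - 1 := by linarith
  unfold Lc
  have : 0 < min (1 / s) (1.01 : ℝ) := lt_min (by positivity) (by norm_num)
  have : 0 < min (1 : ℝ) (1.01 / s) := lt_min (by norm_num) (by positivity)
  positivity

theorem exists_root (N : ℕ) (hN : N ≠ 0) (a : ℝ) (ha : 0 < a) : ∃ w : ℝ, 0 < w ∧ w ^ N = a :=
  ⟨a ^ ((N : ℕ) : ℝ)⁻¹, Real.rpow_pos_of_pos ha _, Real.rpow_inv_natCast_pow ha.le hN⟩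

theorem Lc_le {c : ℝ} (h1 : 0.36787 < c) (h2 : c < 0.36788) (M : ℕ) (hM : 256 ≤ M) (z : ℝ)
    (hz : 0 < z) : Lc c (z ^ (M + 1)) * ((1 - c) * z + c) ^ (M + 1) ≤ 1 := by
  have hs : 0 < z ^ (M + 1) := pow_pos hz _
  have hc : 0 < c := by linarith
  have hc1 : 0 < 1 - c := by linarith
  have hA0 : ∀ w : ℝ, 0 < w → 0 < (1 - c) * w + c := fun w hw => by positivity
  have hA : 0 < ((1 - c) * z + c) ^ (M + 1) := pow_pos (hA0 z hz) _
  have hFdef : ∀ w : ℝ, F c (M + 1) w = ((1 - c) * w + c) ^ (M + 1) * B c (w ^ (M + 1)) :=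
    fun w => rfl
  rcases le_total (z ^ (M + 1)) (1 / 2) with hlo | hlo
  · -- small
    obtain ⟨w, hw0, hw⟩ := exists_root (M + 1) (Nat.succ_ne_zero M) (1 / 2) (by norm_num)
    have h3 := F_le h1 h2 M hM w hw0 (by rw [hw]) (by rw [hw]; norm_num)
    rw [hFdef, hw] at h3
    have hzw : z ≤ w := by
      by_contra hcon
      push Not at hcon
      have := pow_lt_pow_left₀ hcon hw0.le (n := M + 1) (Nat.succ_ne_zero M)
      linarith
    have h4 : ((1 - c) * z + c) ^ (M + 1) ≤ ((1 - c) * w + c) ^ (M + 1) :=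
      pow_le_pow_left₀ (hA0 z hz).le (by nlinarith) _
    have h5 := Lc_small h1 h2 (z ^ (M + 1)) hs
    have hB : 0 ≤ B c (1 / 2) := (Lc_nonneg h1 h2 _ hs).trans h5
    calc Lc c (z ^ (M + 1)) * ((1 - c) * z + c) ^ (M + 1)
        ≤ B c (1 / 2) * ((1 - c) * w + c) ^ (M + 1) := mul_le_mul h5 h4 hA.le hB
      _ ≤ 1 := by rw [mul_comm]; exact h3
  rcases le_total (z ^ (M + 1)) 4 with hhi | hhi
  · -- the bulk
    have h3 := F_le h1 h2 M hM z hz hlo hhi
    rw [hFdef] at h3
    have h5 := Lc_bulk h1 h2 (z ^ (M + 1))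
    calc Lc c (z ^ (M + 1)) * ((1 - c) * z + c) ^ (M + 1)
        ≤ B c (z ^ (M + 1)) * ((1 - c) * z + c) ^ (M + 1) :=
          mul_le_mul_of_nonneg_right h5 hA.le
      _ ≤ 1 := by rw [mul_comm]; exact h3
  · -- large
    obtain ⟨w, hw0, hw⟩ := exists_root (M + 1) (Nat.succ_ne_zero M) 4 (by norm_num)
    have h3 := F_le h1 h2 M hM w hw0 (by rw [hw]; norm_num) (by rw [hw])
    rw [hFdef, hw] at h3
    have hzw : w ≤ z := by
      by_contra hcon
      push Not at hcon
      have := pow_lt_pow_left₀ hcon hz.le (n := M + 1) (Nat.succ_ne_zero M)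
      linarith
    have h4 : ((1 - c) * z + c) ^ (M + 1) * 4 ≤ ((1 - c) * w + c) ^ (M + 1) * z ^ (M + 1) := by
      have e : ((1 - c) * z + c) * w ≤ ((1 - c) * w + c) * z := by nlinarith
      have e' := pow_le_pow_left₀ (mul_nonneg (hA0 z hz).le hw0.le) e (M + 1)
      rwa [mul_pow, mul_pow, hw] at e'
    have h5 := Lc_large h1 h2 (z ^ (M + 1)) hs
    have hL := Lc_nonneg h1 h2 (z ^ (M + 1)) hs
    have hAw : 0 < ((1 - c) * w + c) ^ (M + 1) := pow_pos (hA0 w hw0) _
    generalize ((1 - c) * z + c) ^ (M + 1) = Az at *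
    generalize ((1 - c) * w + c) ^ (M + 1) = Aw at *
    generalize z ^ (M + 1) = s at *
    have h6 : Lc c s * Az * 4 ≤ 1 * 4 := by
      calc Lc c s * Az * 4 = Lc c s * (Az * 4) := by ring
        _ ≤ Lc c s * (Aw * s) := mul_le_mul_of_nonneg_left h4 hL
        _ = (Lc c s * s) * Aw := by ring
        _ ≤ (4 * B c 4) * Aw := mul_le_mul_of_nonneg_right h5 hAw.le
        _ = (Aw * B c 4) * 4 := by ring
        _ ≤ 1 * 4 := mul_le_mul_of_nonneg_right h3 (by norm_num)
    exact le_of_mul_le_mul_right h6 (by norm_num)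

theorem exp_bounds : 0.36787 < Real.exp (-1) ∧ Real.exp (-1) < 0.36788 := by
  have h1 := Real.exp_one_gt_d9
  have h2 := Real.exp_one_lt_d9
  have h3 : Real.exp (-1) * Real.exp 1 = 1 := by
    rw [← Real.exp_add]
    norm_num
  have h4 := Real.exp_pos (-1)
  constructor
  · by_contra hcon
    push Not at hcon
    nlinarith
  · by_contra hcon
    push Not at hcon
    nlinarith

theorem final_alg (c s Y A : ℝ) (hY : 0 < Y) (hs : 0 < s) (hA : 0 < A)
    (key : Lc c s * A ≤ 1) :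
    (2 - 4 * c) * (2 / (s * Y + Y)) + c * min (1 / (s * Y)) (1.01 / Y)
      + (3 * c - 1) * min (1 / Y) (1.01 / (s * Y)) ≤ 1 / (A * Y) := by
  have e2 : min (1 / (s * Y)) (1.01 / Y) = min (1 / s) 1.01 / Y := by
    rw [← div_div, min_div_div_right hY.le]
  have e3 : min (1 / Y) (1.01 / (s * Y)) = min 1 (1.01 / s) / Y := by
    rw [← div_div, min_div_div_right hY.le]
  have e4 : (2 - 4 * c) * (2 / (s * Y + Y)) + c * min (1 / (s * Y)) (1.01 / Y)
      + (3 * c - 1) * min (1 / Y) (1.01 / (s * Y)) = Lc c s / Y := by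
    rw [e2, e3]
    unfold Lc
    have : s * Y + Y = (s + 1) * Y := by ring
    rw [this, ← div_div]
    ring
  rw [e4, div_le_div_iff₀ hY (by positivity)]
  calc Lc c s * (A * Y) = (Lc c s * A) * Y := by ring
    _ ≤ 1 * Y := mul_le_mul_of_nonneg_right key hY.le

open Pool.Agent.R341.SG in
/-- SG-ONE -/
theorem one : SONE := by
  obtain ⟨M, hM⟩ : ∃ M : ℕ, 256 ≤ M := ⟨256, le_rfl⟩
  refine ⟨M + 1, 1.01, by omega, by norm_num, ?_⟩
  intro x y hx hy
  obtain ⟨h1, h2⟩ := exp_bounds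
  have q0 : q 0 = Real.exp (-1) := by simp [q]
  have q1 : q 1 = 2 - 4 * Real.exp (-1) := by
    have : q 1 = 2 * (1 - 2 * Real.exp (-1)) := by simp [q]
    rw [this]
    ring
  have q2 : q 2 = 3 * Real.exp (-1) - 1 := by simp [q]
  rw [q0, q1, q2]
  unfold rho
  generalize Real.exp (-1) = c at h1 h2
  obtain ⟨z, hz, rfl⟩ : ∃ z : ℝ, 0 < z ∧ x = z * y :=
    ⟨x / y, div_pos hx hy, (div_mul_cancel₀ x hy.ne').symm⟩
  have key := Lc_le h1 h2 M hM z hz
  have hc : 0 < c := by linarith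
  have hc1 : 0 < 1 - c := by linarith
  have hA : 0 < ((1 - c) * z + c) ^ (M + 1) := pow_pos (by positivity) _
  have e1 : (1 - c) * (z * y) + (1 - (1 - c)) * y = ((1 - c) * z + c) * y := by ring
  rw [e1, mul_pow, mul_pow]
  exact final_alg c _ _ _ (pow_pos hy _) (pow_pos hz _) hA key

end Pool.Agent.R789.SG
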