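import Pool.Agent.R341.SG.Stm

/-!
# Project SG, piece V, first half: convexity
-/

set_option autoImplicit false

namespace Pool.Agent.R789.SG.VC

open Finset

/-- convex sequences: chords -/
theorem chord (s : ℕ → ℝ) (T : ℕ) (hconv : ∀ i, 1 ≤ i → i + 1 ≤ T → 0 ≤ s (i + 1) - 2 * s i + s (i - 1)) :
    ∀ i, i ≤ T → (T : ℝ) * (s i - s 0) ≤ (i : ℝ) * (s T - s 0) := by
  have hP : ∀ i, i + 1 ≤ T → ((i : ℝ) + 1) * (s i - s 0) ≤ (i : ℝ) * (s (i + 1) - s 0) := by
    intro i
    induction i with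
    | zero => intro _; simp
    | succ i ih =>
      intro hi
      have h1 := ih (by omega)
      have h2 := hconv (i + 1) (by omega) hi
      rw [Nat.add_sub_cancel] at h2
      push_cast
      have h3 : (0 : ℝ) ≤ (i : ℝ) + 1 := by positivity
      nlinarith [mul_nonneg h3 h2]
  intro i hi
  have key : ∀ t, i ≤ t → t ≤ T → (t : ℝ) * (s i - s 0) ≤ (i : ℝ) * (s t - s 0) := by
    intro t ht
    induction t, ht using Nat.le_induction with
    | base => intro _; exact le_rfl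
    | succ t ht ih =>
      intro htT
      rcases Nat.eq_zero_or_pos t with h0 | h0
      · subst h0
        have : i = 0 := by omega
        subst this
        simp
      · have h1 := ih (by omega)
        have h2 := hP t htT
        have h3 : (0 : ℝ) < t := by exact_mod_cast h0
        have h4 : (0 : ℝ) ≤ i := by positivity
        push_cast
        have h5 : (t : ℝ) * (((t : ℝ) + 1) * (s i - s 0)) ≤ (t : ℝ) * ((i : ℝ) * (s (t + 1) - s 0)) := by
          have e1 := mul_le_mul_of_nonneg_left h1 (by positivity : (0 : ℝ) ≤ (t : ℝ) + 1)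
          have e2 := mul_le_mul_of_nonneg_left h2 h4
          nlinarith
        exact le_of_mul_le_mul_left h5 h3
  exact key T hi le_rfl

/-- pointwise inequality -/
theorem pointwise {α : Type} [DecidableEq α] (L : Finset α) (N : Finset α → ℝ)
    (h1 : ∀ x ∈ L, ∑ y ∈ L.erase x, N ((L.erase x).erase y) = ((L.card : ℝ) - 1) * N (L.erase x))
    (h2 : ∑ x ∈ L, N (L.erase x) = (L.card : ℝ) * N L) :
    2 * ((L.card : ℝ) - 1) * ∑ x ∈ L, N (L.erase x) ^ 2
      - (L.card : ℝ) * ((L.card : ℝ) - 1) * N L ^ 2 ≤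
    ∑ x ∈ L, ∑ y ∈ L.erase x, N ((L.erase x).erase y) ^ 2 := by
  set m : ℝ := (L.card : ℝ) with hm
  set R2 : ℝ := ∑ x ∈ L, N (L.erase x) ^ 2 with hR2
  set NL := N L with hNL
  let c : α → α → ℝ := fun x y => N ((L.erase x).erase y)
  let r : α → ℝ := fun x => N (L.erase x)
  have hcxx : ∀ x, c x x = r x := by
    intro x
    show N ((L.erase x).erase x) = N (L.erase x)
    rw [erase_idem]
  have hsym : ∀ x y, c x y = c y x := by
    intro x y
    show N ((L.erase x).erase y) = N ((L.erase y).erase x)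
    rw [erase_right_comm]
  have hrow : ∀ x ∈ L, ∑ y ∈ L, c x y = m * r x := by
    intro x hx
    rw [← add_sum_erase L _ hx, hcxx]
    have := h1 x hx
    show r x + ∑ y ∈ L.erase x, N ((L.erase x).erase y) = m * r x
    rw [this]
    show r x + (m - 1) * r x = m * r x
    ring
  have hr : ∑ x ∈ L, r x = m * NL := h2
  have hr2 : ∑ x ∈ L, r x ^ 2 = R2 := rfl
  -- the square sum
  have hx : ∀ x ∈ L, ∑ y ∈ L, (c x y - r x - r y + NL) ^ 2 =
      ∑ y ∈ L, c x y ^ 2 - m * r x ^ 2 + R2 - m * NL ^ 2 + 2 * m * NL * r x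
        - 2 * ∑ y ∈ L, c x y * r y := by
    intro x hx
    have e1 : ∀ y ∈ L, (c x y - r x - r y + NL) ^ 2 =
        c x y ^ 2 + (r x ^ 2 + NL ^ 2 - 2 * r x * NL) + r y ^ 2 - (2 * r x) * c x y
          - 2 * (c x y * r y) + (2 * NL) * c x y + (2 * r x) * r y - (2 * NL) * r y :=
      fun y _ => by ring
    rw [sum_congr rfl e1]
    simp only [sum_add_distrib, sum_sub_distrib, ← mul_sum, sum_const, nsmul_eq_mul, hrow x hx, hr,
      hr2, ← hm]
    ring
  have hE : ∑ x ∈ L, ∑ y ∈ L, c x y * r y = m * R2 := by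
    rw [sum_comm]
    have e1 : ∀ y ∈ L, ∑ x ∈ L, c x y * r y = m * r y ^ 2 := by
      intro y hy
      rw [← sum_mul]
      have : ∑ x ∈ L, c x y = m * r y := by
        rw [← hrow y hy]
        exact sum_congr rfl fun x _ => hsym x y
      rw [this]
      ring
    rw [sum_congr rfl e1, ← mul_sum, hr2]
  have htot : ∑ x ∈ L, ∑ y ∈ L, (c x y - r x - r y + NL) ^ 2 =
      ∑ x ∈ L, ∑ y ∈ L, c x y ^ 2 + m ^ 2 * NL ^ 2 - 2 * m * R2 := by
    rw [sum_congr rfl hx]
    simp only [sum_add_distrib, sum_sub_distrib, ← mul_sum, sum_const, nsmul_eq_mul, hE, hr,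
      hr2, ← hm]
    ring
  have hdiag : ∑ x ∈ L, (NL - r x) ^ 2 ≤ ∑ x ∈ L, ∑ y ∈ L, (c x y - r x - r y + NL) ^ 2 := by
    refine sum_le_sum fun x hx => ?_
    have := single_le_sum (f := fun y => (c x y - r x - r y + NL) ^ 2)
      (fun y _ => sq_nonneg _) hx
    refine le_trans (le_of_eq ?_) this
    simp only [hcxx]
    ring
  have hdiag2 : ∑ x ∈ L, (NL - r x) ^ 2 = R2 - m * NL ^ 2 := by
    have e1 : ∀ x ∈ L, (NL - r x) ^ 2 = NL ^ 2 - (2 * NL) * r x + r x ^ 2 := fun x _ => by ring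
    rw [sum_congr rfl e1]
    simp only [sum_add_distrib, sum_sub_distrib, ← mul_sum, sum_const, nsmul_eq_mul, hr,
      hr2, ← hm]
    ring
  have hC : ∑ x ∈ L, ∑ y ∈ L, c x y ^ 2 =
      ∑ x ∈ L, ∑ y ∈ L.erase x, N ((L.erase x).erase y) ^ 2 + R2 := by
    rw [hR2, ← sum_add_distrib]
    refine sum_congr rfl fun x hx => ?_
    rw [← add_sum_erase L _ hx, hcxx, add_comm]
  have hJ : 0 ≤ R2 - m * NL ^ 2 := by
    rw [← hdiag2]
    exact sum_nonneg fun x _ => sq_nonneg _
  rw [hdiag2, htot, hC] at hdiag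
  nlinarith

/-- double counting -/
theorem dbl {α : Type} [DecidableEq α] (J : Finset α) (k : ℕ) (g : Finset α → ℝ) :
    ∑ L ∈ powersetCard (k + 1) J, ∑ x ∈ L, g (L.erase x)
      = ((J.card : ℝ) - k) * ∑ K ∈ powersetCard k J, g K := by
  have e1 : ∑ L ∈ powersetCard (k + 1) J, ∑ x ∈ L, g (L.erase x)
      = ∑ K ∈ powersetCard k J, ∑ x ∈ J \ K, g K := by
    rw [sum_sigma', sum_sigma']
    refine sum_nbij' (fun p => ⟨p.1.erase p.2, p.2⟩) (fun p => ⟨insert p.2 p.1, p.2⟩) ?_ ?_ ?_ ?_ ?_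
    · rintro ⟨L, x⟩ h
      simp only [mem_sigma, mem_powersetCard, mem_sdiff] at h ⊢
      refine ⟨⟨(erase_subset _ _).trans h.1.1, ?_⟩, h.1.1 h.2, notMem_erase _ _⟩
      rw [card_erase_of_mem h.2, h.1.2]
      rfl
    · rintro ⟨K, x⟩ h
      simp only [mem_sigma, mem_powersetCard, mem_sdiff] at h ⊢
      refine ⟨⟨insert_subset h.2.1 h.1.1, ?_⟩, mem_insert_self _ _⟩
      rw [card_insert_of_notMem h.2.2, h.1.2]
    · rintro ⟨L, x⟩ h
      simp only [mem_sigma, mem_powersetCard] at h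
      simp only [insert_erase h.2]
    · rintro ⟨K, x⟩ h
      simp only [mem_sigma, mem_powersetCard, mem_sdiff] at h
      simp only [erase_insert h.2.2]
    · rintro ⟨L, x⟩ h
      rfl
  rw [e1, mul_sum]
  refine sum_congr rfl fun K hK => ?_
  rw [mem_powersetCard] at hK
  rw [sum_const, nsmul_eq_mul, card_sdiff_of_subset hK.1, hK.2,
    Nat.cast_sub (hK.2 ▸ card_le_card hK.1)]

end Pool.Agent.R789.SG.VC
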