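import Pool.Agent.R789.SG.VCheb
import Pool.Agent.R789.SG.VConv

/-!
# Project SG, piece V
-/

set_option autoImplicit false

namespace Pool.Agent.R789.SG

open Finset Pool.Agent.R341.SG

theorem count_erase {n : ℕ} (B : Finset (Finset (Fin n))) (r : ℕ) (L : Finset (Fin n)) :
    ∑ x ∈ L, ((powersetCard r (L.erase x)).filter fun I => I ∈ B).card
      = ((powersetCard r L).filter fun I => I ∈ B).card * (L.card - r) := by
  classical
  have e1 : ∀ x ∈ L, ((powersetCard r (L.erase x)).filter fun I => I ∈ B).card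
      = ∑ I ∈ (powersetCard r L).filter (fun I => I ∈ B), if x ∉ I then 1 else 0 := by
    intro x hx
    rw [← card_filter]
    congr 1
    ext I
    simp only [mem_filter, mem_powersetCard]
    constructor
    · rintro ⟨⟨a, b⟩, c⟩
      exact ⟨⟨⟨a.trans (erase_subset _ _), b⟩, c⟩, fun h => (notMem_erase x L) (a h)⟩
    · rintro ⟨⟨⟨a, b⟩, c⟩, d⟩
      exact ⟨⟨subset_erase.2 ⟨a, d⟩, b⟩, c⟩
  rw [sum_congr rfl e1, sum_comm]
  have e2 : ∀ I ∈ (powersetCard r L).filter (fun I => I ∈ B),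
      (∑ x ∈ L, if x ∉ I then 1 else 0) = L.card - r := by
    intro I hI
    rw [mem_filter, mem_powersetCard] at hI
    rw [← card_filter]
    have : L.filter (fun x => x ∉ I) = L \ I := by
      ext x
      simp [mem_sdiff]
    rw [this, card_sdiff_of_subset hI.1.1, hI.1.2]
  rw [sum_congr rfl e2, sum_const, smul_eq_mul]

theorem den_rec {n : ℕ} (B : Finset (Finset (Fin n))) (r : ℕ) (L : Finset (Fin n))
    (hL : r < L.card) : ∑ x ∈ L, den B r (L.erase x) = (L.card : ℝ) * den B r L := by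
  classical
  obtain ⟨m, hm⟩ : ∃ m, L.card = m + 1 := ⟨L.card - 1, by omega⟩
  have e1 : ∀ x ∈ L, den B r (L.erase x)
      = (((powersetCard r (L.erase x)).filter fun I => I ∈ B).card : ℝ) / (m.choose r : ℝ) := by
    intro x hx
    unfold den
    rw [card_erase_of_mem hx, hm, Nat.add_sub_cancel]
  rw [sum_congr rfl e1, ← sum_div]
  have e2 : ∑ x ∈ L, (((powersetCard r (L.erase x)).filter fun I => I ∈ B).card : ℝ)
      = (((powersetCard r L).filter fun I => I ∈ B).card : ℝ) * ((L.card - r : ℕ) : ℝ) := by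
    exact_mod_cast count_erase B r L
  rw [e2]
  unfold den
  rw [hm]
  have h1 : 0 < m.choose r := Nat.choose_pos (by omega)
  have h2 : 0 < (m + 1).choose r := Nat.choose_pos (by omega)
  have h3 : (m + 1) * m.choose r = (m + 1).choose r * (m + 1 - r) := by
    rw [mul_comm]
    exact Nat.choose_mul_succ_eq m r
  have h3' : ((m : ℝ) + 1) * (m.choose r : ℝ) = ((m + 1).choose r : ℝ) * ((m + 1 - r : ℕ) : ℝ) := by
    exact_mod_cast h3
  have h1' : (m.choose r : ℝ) ≠ 0 := by exact_mod_cast h1.ne'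
  have h2' : ((m + 1).choose r : ℝ) ≠ 0 := by exact_mod_cast h2.ne'
  push_cast
  field_simp
  linear_combination -(((powersetCard r L).filter fun I => I ∈ B).card : ℝ) * h3'

/-- average of the squares over the `k`-subsets -/
noncomputable def Sav {n : ℕ} (B : Finset (Finset (Fin n))) (r : ℕ) (J : Finset (Fin n))
    (k : ℕ) : ℝ := (∑ K ∈ powersetCard k J, (den B r K) ^ 2) / (J.card.choose k : ℝ)

theorem Sav_convex {n : ℕ} (B : Finset (Finset (Fin n))) (r : ℕ) (J : Finset (Fin n)) (k : ℕ)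
    (hk : r ≤ k) (hkj : k + 2 ≤ J.card) :
    0 ≤ Sav B r J k - 2 * Sav B r J (k + 1) + Sav B r J (k + 2) := by
  classical
  set j := J.card with hj
  set A0 := ∑ K ∈ powersetCard k J, (den B r K) ^ 2 with hA0
  set A1 := ∑ K ∈ powersetCard (k + 1) J, (den B r K) ^ 2 with hA1
  set A2 := ∑ K ∈ powersetCard (k + 2) J, (den B r K) ^ 2 with hA2
  -- sum of the pointwise inequality
  have h1 : ∀ L ∈ powersetCard (k + 2) J,
      2 * ((k : ℝ) + 1) * ∑ x ∈ L, den B r (L.erase x) ^ 2
        - ((k : ℝ) + 2) * ((k : ℝ) + 1) * den B r L ^ 2 ≤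
      ∑ x ∈ L, ∑ y ∈ L.erase x, den B r ((L.erase x).erase y) ^ 2 := by
    intro L hL
    rw [mem_powersetCard] at hL
    have e := VC.pointwise L (den B r) (by
      intro x hx
      have hc : (L.erase x).card = k + 1 := by
        rw [card_erase_of_mem hx, hL.2]
        rfl
      rw [den_rec B r (L.erase x) (by omega), hc, hL.2]
      push_cast
      ring) (den_rec B r L (by omega))
    rw [hL.2] at e
    push_cast at e
    have e' : ((k : ℝ) + 2 - 1) = (k : ℝ) + 1 := by ring
    rw [e'] at e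
    exact e
  have h2 := sum_le_sum h1
  rw [sum_sub_distrib, ← mul_sum, ← mul_sum] at h2
  have d1 := VC.dbl J (k + 1) (fun K => den B r K ^ 2)
  have d2 := VC.dbl J (k + 1) (fun K => ∑ y ∈ K, den B r (K.erase y) ^ 2)
  have d3 := VC.dbl J k (fun K => den B r K ^ 2)
  beta_reduce at d1 d2 d3
  rw [show k + 1 + 1 = k + 2 from rfl] at d1 d2
  rw [d1, d2, d3, ← hj, ← hA0, ← hA1, ← hA2] at h2
  push_cast at h2
  -- binomial identities
  have hk1 : (k : ℝ) + 2 ≤ (j : ℝ) := by exact_mod_cast hkj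
  have c1 : (j.choose (k + 1) : ℝ) * ((k : ℝ) + 1) = (j.choose k : ℝ) * ((j : ℝ) - k) := by
    have := Nat.choose_succ_right_eq j k
    have h : ((j.choose (k + 1) * (k + 1) : ℕ) : ℝ) = ((j.choose k * (j - k) : ℕ) : ℝ) := by
      rw [this]
    push_cast [Nat.cast_sub (show k ≤ j by omega)] at h
    exact h
  have c2 : (j.choose (k + 2) : ℝ) * ((k : ℝ) + 2) = (j.choose (k + 1) : ℝ) * ((j : ℝ) - k - 1) := by
    have := Nat.choose_succ_right_eq j (k + 1)
    have h : ((j.choose (k + 1 + 1) * (k + 1 + 1) : ℕ) : ℝ)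
        = ((j.choose (k + 1) * (j - (k + 1)) : ℕ) : ℝ) := by
      rw [this]
    push_cast [Nat.cast_sub (show k + 1 ≤ j by omega)] at h
    have e : (k : ℝ) + 1 + 1 = (k : ℝ) + 2 := by ring
    rw [e] at h
    linarith
  have p0 : (0 : ℝ) < (j.choose k : ℝ) := by exact_mod_cast Nat.choose_pos (by omega)
  have p1 : (0 : ℝ) < (j.choose (k + 1) : ℝ) := by exact_mod_cast Nat.choose_pos (by omega)
  have p2 : (0 : ℝ) < (j.choose (k + 2) : ℝ) := by exact_mod_cast Nat.choose_pos (by omega)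
  unfold Sav
  rw [← hj, ← hA0, ← hA1, ← hA2]
  set C0 := (j.choose k : ℝ) with hC0
  set C1 := (j.choose (k + 1) : ℝ) with hC1
  set C2 := (j.choose (k + 2) : ℝ) with hC2
  have hw : 0 < (j : ℝ) - k - 1 := by linarith
  have hw2 : 0 < (j : ℝ) - k := by linarith
  have hkk : (0 : ℝ) ≤ k := by positivity
  -- A0/C0 etc in terms of C1
  have f0 : A0 / C0 = ((j : ℝ) - k) * A0 / (C1 * ((k : ℝ) + 1)) := by
    rw [c1, mul_comm C0, mul_div_mul_left _ _ hw2.ne']
  have f2 : A2 / C2 = ((k : ℝ) + 2) * A2 / (C1 * ((j : ℝ) - k - 1)) := by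
    rw [← c2, mul_comm C2, mul_div_mul_left _ _ (by positivity)]
  have f3 : A0 / C0 - 2 * (A1 / C1) + A2 / C2 =
      (((j : ℝ) - k - 1) * (((j : ℝ) - k) * A0) - 2 * ((k : ℝ) + 1) * (((j : ℝ) - k - 1) * A1)
        + ((k : ℝ) + 2) * ((k : ℝ) + 1) * A2) / (C1 * ((k : ℝ) + 1) * ((j : ℝ) - k - 1)) := by
    rw [f0, f2]
    have g1 : C1 ≠ 0 := p1.ne'
    have g2 : (k : ℝ) + 1 ≠ 0 := by positivity
    have g3 : (j : ℝ) - k - 1 ≠ 0 := hw.ne'
    field_simp
    try ring
  rw [f3]
  apply div_nonneg _ (by positivity)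
  have e3 : (j : ℝ) - ((k : ℝ) + 1) = (j : ℝ) - k - 1 := by ring
  rw [e3] at h2
  linarith

theorem den_sq_base {n : ℕ} (B : Finset (Finset (Fin n))) (r : ℕ) (J : Finset (Fin n)) :
    Sav B r J r = den B r J := by
  classical
  unfold Sav
  have e1 : ∀ K ∈ powersetCard r J, den B r K ^ 2 = if K ∈ B then (1 : ℝ) else 0 := by
    intro K hK
    rw [mem_powersetCard] at hK
    unfold den
    rw [hK.2, Nat.choose_self]
    have h1 : powersetCard r K = {K} := by
      rw [← hK.2, powersetCard_self]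
    rw [h1, filter_singleton]
    split_ifs <;> simp
  rw [sum_congr rfl e1, ← sum_filter, sum_const, nsmul_eq_mul, mul_one]
  rfl

theorem Sav_top {n : ℕ} (B : Finset (Finset (Fin n))) (r : ℕ) (J : Finset (Fin n)) :
    Sav B r J J.card = den B r J ^ 2 := by
  unfold Sav
  rw [powersetCard_self, sum_singleton, Nat.choose_self, Nat.cast_one, div_one]

theorem var : VAR := by
  intro n r rp j J hJ h1 h2 h3 B
  subst hJ
  have hc := VC.chord (fun i => Sav B r J (J.card - i)) (J.card - r) (by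
    intro i hi hiT
    have h4 := Sav_convex B r J (J.card - (i + 1)) (by omega) (by omega)
    have e1 : J.card - (i + 1) + 1 = J.card - i := by omega
    have e2 : J.card - (i + 1) + 2 = J.card - (i - 1) := by omega
    rw [e1, e2] at h4
    exact h4) (J.card - rp) (by omega)
  beta_reduce at hc
  have e1 : J.card - (J.card - rp) = rp := by omega
  have e2 : J.card - (J.card - r) = r := by omega
  rw [e1, e2, Nat.sub_zero, Sav_top, den_sq_base, Nat.cast_sub h3.le, Nat.cast_sub h2] at hc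
  have hjr : (0 : ℝ) < (J.card : ℝ) - r := by
    have : (r : ℝ) < (J.card : ℝ) := by exact_mod_cast h3
    linarith
  show Sav B r J rp - den B r J ^ 2 ≤ _
  rw [div_mul_eq_mul_div, le_div_iff₀ hjr]
  calc (Sav B r J rp - den B r J ^ 2) * ((J.card : ℝ) - r)
      = ((J.card : ℝ) - r) * (Sav B r J rp - den B r J ^ 2) := by ring
    _ ≤ ((J.card : ℝ) - rp) * (den B r J - den B r J ^ 2) := hc
    _ = ((J.card : ℝ) - rp) * (den B r J * (1 - den B r J)) := by ring

/-- SG-V -/
theorem sv : SV := sv_of_var var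

end Pool.Agent.R789.SG
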