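import Pool.Agent.R341.SG.Stm

/-!
# Project SG, piece V, second half: mean identity and Chebyshev
-/

set_option autoImplicit false

namespace Pool.Agent.R789.SG

open Finset Pool.Agent.R341.SG

/-- density of `B` in the `r`-subsets of `K` -/
noncomputable def den {n : ℕ} (B : Finset (Finset (Fin n))) (r : ℕ) (K : Finset (Fin n)) : ℝ :=
  (((powersetCard r K).filter fun I => I ∈ B).card : ℝ) / (K.card.choose r : ℝ)

/-- the variance bound -/
def VAR : Prop := ∀ (n r rp j : ℕ) (J : Finset (Fin n)), J.card = j → r ≤ rp → rp ≤ j → r < j →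
  ∀ (B : Finset (Finset (Fin n))),
  (∑ K ∈ powersetCard rp J, (den B r K) ^ 2) / (j.choose rp : ℝ) - (den B r J) ^ 2 ≤
    ((j : ℝ) - rp) / ((j : ℝ) - r) * (den B r J * (1 - den B r J))

theorem card_super {n : ℕ} (I J : Finset (Fin n)) (hI : I ⊆ J) (rp : ℕ) (hr : I.card ≤ rp) :
    ((powersetCard rp J).filter fun K => I ⊆ K).card
      = (J.card - I.card).choose (rp - I.card) := by
  classical
  rw [← card_sdiff_of_subset hI, ← card_powersetCard]
  refine card_nbij' (fun K => K \ I) (fun L => L ∪ I) ?_ ?_ ?_ ?_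
  · intro K hK
    simp only [coe_filter, mem_powersetCard, Set.mem_ofPred_eq] at hK
    simp only [mem_coe, mem_powersetCard]
    refine ⟨sdiff_subset_sdiff hK.1.1 le_rfl, ?_⟩
    rw [card_sdiff_of_subset hK.2, hK.1.2]
  · intro L hL
    simp only [mem_coe, mem_powersetCard] at hL
    simp only [coe_filter, mem_powersetCard, Set.mem_ofPred_eq]
    have hdis : Disjoint L I := by
      rw [disjoint_left]
      intro x hx hxI
      exact (mem_sdiff.1 (hL.1 hx)).2 hxI
    refine ⟨⟨union_subset (hL.1.trans sdiff_subset) hI, ?_⟩, subset_union_right⟩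
    rw [card_union_of_disjoint hdis, hL.2]
    omega
  · intro K hK
    simp only [coe_filter, mem_powersetCard, Set.mem_ofPred_eq] at hK
    exact sdiff_union_of_subset hK.2
  · intro L hL
    simp only [mem_coe, mem_powersetCard] at hL
    have hdis : Disjoint L I := by
      rw [disjoint_left]
      intro x hx hxI
      exact (mem_sdiff.1 (hL.1 hx)).2 hxI
    exact union_sdiff_cancel_right hdis

theorem mean_count {n : ℕ} (B : Finset (Finset (Fin n))) (r rp : ℕ) (J : Finset (Fin n))
    (h1 : r ≤ rp) :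
    ∑ K ∈ powersetCard rp J, ((powersetCard r K).filter fun I => I ∈ B).card
      = ((powersetCard r J).filter fun I => I ∈ B).card * (J.card - r).choose (rp - r) := by
  classical
  have e1 : ∀ K ∈ powersetCard rp J, ((powersetCard r K).filter fun I => I ∈ B).card
      = ∑ I ∈ (powersetCard r J).filter (fun I => I ∈ B), if I ⊆ K then 1 else 0 := by
    intro K hK
    rw [← card_filter]
    congr 1
    ext I
    simp only [mem_filter, mem_powersetCard]
    rw [mem_powersetCard] at hK
    constructor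
    · rintro ⟨⟨a, b⟩, c⟩
      exact ⟨⟨⟨a.trans hK.1, b⟩, c⟩, a⟩
    · rintro ⟨⟨⟨a, b⟩, c⟩, d⟩
      exact ⟨⟨d, b⟩, c⟩
  rw [sum_congr rfl e1, sum_comm]
  have e2 : ∀ I ∈ (powersetCard r J).filter (fun I => I ∈ B),
      (∑ K ∈ powersetCard rp J, if I ⊆ K then 1 else 0) = (J.card - r).choose (rp - r) := by
    intro I hI
    rw [mem_filter, mem_powersetCard] at hI
    rw [← card_filter]
    have := card_super I J hI.1.1 rp (by rw [hI.1.2]; exact h1)
    rw [hI.1.2] at this
    exact this
  rw [sum_congr rfl e2, sum_const, smul_eq_mul]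

theorem mean_den {n : ℕ} (B : Finset (Finset (Fin n))) (r rp j : ℕ) (J : Finset (Fin n))
    (hJ : J.card = j) (h1 : r ≤ rp) (h2 : rp ≤ j) :
    ∑ K ∈ powersetCard rp J, den B r K = (j.choose rp : ℝ) * den B r J := by
  have e1 : ∀ K ∈ powersetCard rp J, den B r K
      = (((powersetCard r K).filter fun I => I ∈ B).card : ℝ) / (rp.choose r : ℝ) := by
    intro K hK
    rw [mem_powersetCard] at hK
    unfold den
    rw [hK.2]
  rw [sum_congr rfl e1, ← sum_div]
  have e2 := mean_count B r rp J h1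
  have e3 : ∑ K ∈ powersetCard rp J, (((powersetCard r K).filter fun I => I ∈ B).card : ℝ)
      = (((powersetCard r J).filter fun I => I ∈ B).card : ℝ)
        * ((J.card - r).choose (rp - r) : ℝ) := by
    exact_mod_cast e2
  rw [e3]
  unfold den
  rw [hJ]
  have h3 : 0 < rp.choose r := Nat.choose_pos h1
  have h4 : 0 < j.choose r := Nat.choose_pos (h1.trans h2)
  have h5 : (j.choose rp : ℝ) * (rp.choose r : ℝ) = (j.choose r : ℝ) * ((j - r).choose (rp - r) : ℝ)
    := by exact_mod_cast Nat.choose_mul (n := j) h1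
  have h3' : (rp.choose r : ℝ) ≠ 0 := by exact_mod_cast h3.ne'
  have h4' : (j.choose r : ℝ) ≠ 0 := by exact_mod_cast h4.ne'
  field_simp
  linear_combination -(((powersetCard r J).filter fun I => I ∈ B).card : ℝ) * h5

/-- SG-V from the variance bound -/
theorem sv_of_var (hV : VAR) : SV := by
  classical
  intro n r rp j J hJ h1 h2 h3 B y hy hd
  have hvar := hV n r rp j J hJ h1 h2 h3 B
  have hmean := mean_den B r rp j J hJ h1 h2
  set yb := den B r J with hyb
  have hcr : (0 : ℝ) < (j.choose r : ℝ) := by exact_mod_cast Nat.choose_pos h3.le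
  have hcp : (0 : ℝ) < (j.choose rp : ℝ) := by exact_mod_cast Nat.choose_pos h2
  have hrpr : (0 : ℝ) < (rp.choose r : ℝ) := by exact_mod_cast Nat.choose_pos h1
  have hyb1 : y ≤ yb := by
    rw [hyb]
    unfold den
    rw [hJ, le_div_iff₀ hcr]
    exact hd
  have hyb0 : 0 < yb := hy.trans_le hyb1
  set N := j.choose rp with hN
  -- the sum of the squared deviations
  have hdev : ∑ K ∈ powersetCard rp J, (den B r K - yb) ^ 2
      = ∑ K ∈ powersetCard rp J, (den B r K) ^ 2 - (N : ℝ) * yb ^ 2 := by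
    have e1 : ∀ K ∈ powersetCard rp J, (den B r K - yb) ^ 2
        = (den B r K) ^ 2 - 2 * yb * den B r K + yb ^ 2 := fun K _ => by ring
    rw [sum_congr rfl e1, sum_add_distrib, sum_sub_distrib, ← mul_sum, hmean, sum_const,
      card_powersetCard, hJ, nsmul_eq_mul]
    ring
  set bad := (powersetCard rp J).filter fun K =>
      (((powersetCard r K).filter fun I => I ∈ B).card : ℝ) < y / 2 * (rp.choose r : ℝ) with hbad
  have hbadle : (bad.card : ℝ) * (yb ^ 2 / 4) ≤ ∑ K ∈ powersetCard rp J, (den B r K - yb) ^ 2 := by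
    rw [← nsmul_eq_mul]
    refine (card_nsmul_le_sum bad (fun K => (den B r K - yb) ^ 2) _ ?_).trans ?_
    · intro K hK
      rw [hbad, mem_filter, mem_powersetCard] at hK
      have e1 : den B r K < y / 2 := by
        unfold den
        rw [hK.1.2, div_lt_iff₀ hrpr]
        exact hK.2
      have e2 : yb / 2 ≤ yb - den B r K := by linarith
      nlinarith
    · exact sum_le_sum_of_subset_of_nonneg (filter_subset _ _) (fun K _ _ => sq_nonneg _)
  have hjr : (0 : ℝ) < (j : ℝ) - r := by
    have : (r : ℝ) < (j : ℝ) := by exact_mod_cast h3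
    linarith
  have hjrp : (0 : ℝ) ≤ (j : ℝ) - rp := by
    have : (rp : ℝ) ≤ (j : ℝ) := by exact_mod_cast h2
    linarith
  have hvar2 : ∑ K ∈ powersetCard rp J, (den B r K) ^ 2 - (N : ℝ) * yb ^ 2 ≤
      (N : ℝ) * (((j : ℝ) - rp) / ((j : ℝ) - r) * yb) := by
    have e1 : (∑ K ∈ powersetCard rp J, (den B r K) ^ 2) / (N : ℝ) ≤
        yb ^ 2 + ((j : ℝ) - rp) / ((j : ℝ) - r) * yb := by
      have e2 : ((j : ℝ) - rp) / ((j : ℝ) - r) * (yb * (1 - yb)) ≤
          ((j : ℝ) - rp) / ((j : ℝ) - r) * yb := by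
        apply mul_le_mul_of_nonneg_left _ (div_nonneg hjrp hjr.le)
        nlinarith
      linarith
    rw [div_le_iff₀ hcp] at e1
    linarith
  have hfin : (bad.card : ℝ) * (yb ^ 2 / 4) ≤
      (N : ℝ) * (((j : ℝ) - rp) / ((j : ℝ) - r) * yb) := by
    rw [hdev] at hbadle
    exact hbadle.trans hvar2
  -- divide
  have h6 : (bad.card : ℝ) * yb ≤ 4 * ((N : ℝ) * (((j : ℝ) - rp) / ((j : ℝ) - r))) := by
    have e1 : ((bad.card : ℝ) * yb) * (yb / 4) ≤
        (4 * ((N : ℝ) * (((j : ℝ) - rp) / ((j : ℝ) - r)))) * (yb / 4) := by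
      calc ((bad.card : ℝ) * yb) * (yb / 4) = (bad.card : ℝ) * (yb ^ 2 / 4) := by ring
        _ ≤ _ := hfin
        _ = _ := by ring
    exact le_of_mul_le_mul_right e1 (by positivity)
  have h7 : (bad.card : ℝ) * y ≤ 4 * ((N : ℝ) * (((j : ℝ) - rp) / ((j : ℝ) - r))) :=
    (mul_le_mul_of_nonneg_left hyb1 (by positivity)).trans h6
  have h8 : 4 * ((j : ℝ) - rp) / (((j : ℝ) - r) * y) * (N : ℝ)
      = 4 * ((N : ℝ) * (((j : ℝ) - rp) / ((j : ℝ) - r))) / y := by
    field_simp
  rw [h8, le_div_iff₀ hy]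
  exact h7

end Pool.Agent.R789.SG
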